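import Mathlib

/-!
# MP_843c3c_an : the five classes of normed spaces with the angle `∠_ρ` are pairwise different

The examples are the plane with the maximum of two Euclidean norms, and its dual.
-/

namespace Pool.Agent.Results.MP_843c3c_an.FiveClasses

section defs

/-- The product `⟨x | y⟩_ρ` of the real normed space `X`. -/
noncomputable def ip {X : Type} [NormedAddCommGroup X] [NormedSpace ℝ X] (ρ : ℝ) (x y : X) : ℝ :=
  ‖x‖ * ‖y‖ *
    ((‖‖x‖⁻¹ • x + ‖y‖⁻¹ • y‖ ^ 2 - ‖‖x‖⁻¹ • x - ‖y‖⁻¹ • y‖ ^ 2) / 4) *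
    ((‖‖x‖⁻¹ • x + ‖y‖⁻¹ • y‖ ^ 2 + ‖‖x‖⁻¹ • x - ‖y‖⁻¹ • y‖ ^ 2) / 4) ^ ρ

/-- The real normed space `X` has the angle `∠_ρ`. -/
def HasAngle (ρ : ℝ) (X : Type) [NormedAddCommGroup X] [NormedSpace ℝ X] : Prop :=
  ∀ x y : X, x ≠ 0 → y ≠ 0 → |ip ρ x y| ≤ ‖x‖ * ‖y‖

/-- Real normed spaces. -/
structure NSp : Type 1 where
  carrier : Type
  [grp : NormedAddCommGroup carrier]
  [spc : NormedSpace ℝ carrier]

attribute [instance] NSp.grp NSp.spc

/-- The class of the real normed spaces which have the angle `∠_ρ`. -/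
def NORM (ρ : ℝ) : Set NSp := {X | HasAngle ρ X.carrier}

end defs

section general

variable {X : Type} [NormedAddCommGroup X] [NormedSpace ℝ X]

lemma hasAngle_of {ρ : ℝ}
    (h : ∀ x y : X, ‖x‖ = 1 → ‖y‖ = 1 →
      (‖x + y‖ ^ 2 - ‖x - y‖ ^ 2) / 4 * ((‖x + y‖ ^ 2 + ‖x - y‖ ^ 2) / 4) ^ ρ ≤ 1) :
    HasAngle ρ X := by
  intro x y hx hy
  have h1 : ‖‖x‖⁻¹ • x‖ = 1 := norm_smul_inv_norm hx
  have h2 : ‖‖y‖⁻¹ • y‖ = 1 := norm_smul_inv_norm hy
  have h3 := h _ _ h1 h2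
  have h4 := h _ _ h1 ((norm_neg _).trans h2)
  unfold ip
  set u := ‖x‖⁻¹ • x
  set v := ‖y‖⁻¹ • y
  rw [sub_neg_eq_add, ← sub_eq_add_neg, add_comm (‖u - v‖ ^ 2)] at h4
  set P := ((‖u + v‖ ^ 2 + ‖u - v‖ ^ 2) / 4) ^ ρ
  set Q := (‖u + v‖ ^ 2 - ‖u - v‖ ^ 2) / 4 with hQ
  have h5 : (‖u - v‖ ^ 2 - ‖u + v‖ ^ 2) / 4 = - Q := by rw [hQ]; ring
  rw [h5] at h4
  have h6 : 0 ≤ ‖x‖ * ‖y‖ := by positivity
  rw [mul_assoc, abs_mul, abs_of_nonneg h6]
  have h7 : |Q * P| ≤ 1 := abs_le.2 ⟨by linarith, h3⟩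
  nlinarith

lemma not_hasAngle_of {ρ : ℝ} {x y : X} (hx : ‖x‖ = 1) (hy : ‖y‖ = 1)
    (h : 1 < (‖x + y‖ ^ 2 - ‖x - y‖ ^ 2) / 4 * ((‖x + y‖ ^ 2 + ‖x - y‖ ^ 2) / 4) ^ ρ) :
    ¬ HasAngle ρ X := by
  intro hX
  have hx0 : x ≠ 0 := by rintro rfl; simp at hx
  have hy0 : y ≠ 0 := by rintro rfl; simp at hy
  have h1 := (le_abs_self _).trans (hX x y hx0 hy0)
  unfold ip at h1
  rw [hx, hy, inv_one, one_smul, one_smul, mul_one, one_mul] at h1
  linarith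

/-- Bernoulli's inequality. -/
lemma bern {c s : ℝ} (hc : 1 ≤ c) (hs : -1 ≤ s) : 1 + c * s ≤ (1 + s) ^ c :=
  one_add_mul_self_le_rpow_one_add hs hc

/-- The numerical inequality in the negative case. -/
lemma neg_ineq {p q c ν : ℝ} (hν : 1 < ν) (hc : c * (ν - 1) = ν + 1) (hq : 0 ≤ q)
    (hp1 : p ≤ 1) (hP : 0 < p + q) (h : 1 ≤ p + ν * q) : (p - q) * (p + q) ^ (-c) ≤ 1 := by
  have hc1 : 1 ≤ c := by
    by_contra hcon
    push Not at hcon
    nlinarith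
  have hpos : 0 < (p + q) ^ (-c) := Real.rpow_pos_of_pos hP _
  rcases le_total 1 (p + q) with h1 | h1
  · have h2 : (p + q) ^ (-c) ≤ 1 := Real.rpow_le_one_of_one_le_of_nonpos h1 (by linarith)
    rcases le_total 0 (p - q) with h3 | h3
    · nlinarith
    · nlinarith
  · have h2 := bern hc1 (s := p + q - 1) (by linarith)
    have h3 : 1 + (p + q - 1) = p + q := by ring
    rw [h3] at h2
    have h4 : p - q ≤ 1 + c * (p + q - 1) := by
      have h5 : (ν - 1) * (p - q) ≤ (ν - 1) * (1 + c * (p + q - 1)) := by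
        have : (ν - 1) * (1 + c * (p + q - 1)) = (ν - 1) + (ν + 1) * (p + q - 1) := by
          rw [← hc]; ring
        rw [this]
        nlinarith
      exact le_of_mul_le_mul_left h5 (by linarith)
    have h5 : p - q ≤ (p + q) ^ c := h4.trans h2
    calc (p - q) * (p + q) ^ (-c) ≤ (p + q) ^ c * (p + q) ^ (-c) := by gcongr
      _ = 1 := by rw [← Real.rpow_add hP]; simp

/-- The numerical inequality in the positive case; here `μ = 1 / a`. -/
lemma pos_ineq {p q c a : ℝ} (ha : 1 < a) (hc : c * (a - 1) = a + 1) (hp : 0 ≤ p) (hq : 0 ≤ q)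
    (h : a * p + q ≤ a) : (p - q) * (p + q) ^ c ≤ 1 := by
  have hc1 : 1 ≤ c := by
    by_contra hcon
    push Not at hcon
    nlinarith
  rcases le_total (p + q) 1 with h1 | h1
  · have h2 : (p + q) ^ c ≤ 1 := Real.rpow_le_one (by linarith) h1 (by linarith)
    have h2' : 0 ≤ (p + q) ^ c := Real.rpow_nonneg (by linarith) _
    rcases le_total 0 (p - q) with h3 | h3
    · nlinarith
    · nlinarith
  · have hP : 0 < p + q := by linarith
    have h2 := bern hc1 (s := 1 / (p + q) - 1) (by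
      have : 0 < 1 / (p + q) := by positivity
      linarith)
    have h3 : 1 + (1 / (p + q) - 1) = (p + q)⁻¹ := by ring
    rw [h3, Real.inv_rpow hP.le] at h2
    have h6 : -(p + q - 1) ≤ 1 / (p + q) - 1 := by
      rw [div_sub_one hP.ne', le_div_iff₀ hP]
      nlinarith
    have h4 : p - q ≤ 1 + c * (1 / (p + q) - 1) := by
      have h5 : (a - 1) * (p - q) ≤ (a - 1) * (1 + c * (1 / (p + q) - 1)) := by
        have : (a - 1) * (1 + c * (1 / (p + q) - 1)) = (a - 1) + (a + 1) * (1 / (p + q) - 1) := by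
          rw [← hc]; ring
        rw [this]
        nlinarith
      exact le_of_mul_le_mul_left h5 (by linarith)
    have h5 : p - q ≤ ((p + q) ^ c)⁻¹ := h4.trans h2
    have h7 : 0 < (p + q) ^ c := Real.rpow_pos_of_pos hP _
    calc (p - q) * (p + q) ^ c ≤ ((p + q) ^ c)⁻¹ * (p + q) ^ c := by gcongr
      _ = 1 := inv_mul_cancel₀ h7.ne'

end general


lemma exists_sigma {A D η : ℝ} (hA : 0 < A) (hD : A < D) (hη : 0 < η) :
    ∃ σ, 0 < σ ∧ σ < η ∧ 1 < (1 - A * σ) * (1 + D * σ) := by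
  have hD0 : 0 < D := hA.trans hD
  refine ⟨min (η / 2) ((D - A) / (2 * (A * D))), ?_, ?_, ?_⟩
  · apply lt_min (by linarith)
    apply div_pos (by linarith) (by positivity)
  · exact (min_le_left _ _).trans_lt (by linarith)
  · set σ := min (η / 2) ((D - A) / (2 * (A * D))) with hσ
    have h0 : 0 < σ := lt_min (by linarith) (div_pos (by linarith) (by positivity))
    have h1 : σ ≤ (D - A) / (2 * (A * D)) := min_le_right _ _
    rw [le_div_iff₀ (by positivity)] at h1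
    have h2 : (1 - A * σ) * (1 + D * σ) = 1 + σ * ((D - A) - A * D * σ) := by ring
    rw [h2]
    have h3 : 0 < (D - A) - A * D * σ := by nlinarith
    have := mul_pos h0 h3
    linarith

/-! ### The maximum of two Euclidean norms -/

/-- The plane. -/
def PX (_ : Set.Ioi (1 : ℝ)) : Type := ℝ × ℝ

section PXsec

variable (b : Set.Ioi (1 : ℝ))

noncomputable instance : AddCommGroup (PX b) := inferInstanceAs (AddCommGroup (ℝ × ℝ))
noncomputable instance : Module ℝ (PX b) := inferInstanceAs (Module ℝ (ℝ × ℝ))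

variable {b}

noncomputable def NP (v : PX b) : ℝ :=
  max ‖(⟨v.1, v.2⟩ : ℂ)‖ ‖(⟨(b : ℝ) * v.1, v.2 / b⟩ : ℂ)‖

lemma pfst_add (p q : PX b) : (p + q).1 = p.1 + q.1 := rfl
lemma psnd_add (p q : PX b) : (p + q).2 = p.2 + q.2 := rfl
lemma pfst_sub (p q : PX b) : (p - q).1 = p.1 - q.1 := rfl
lemma psnd_sub (p q : PX b) : (p - q).2 = p.2 - q.2 := rfl
lemma pfst_smul (c : ℝ) (q : PX b) : (c • q).1 = c * q.1 := rfl
lemma psnd_smul (c : ℝ) (q : PX b) : (c • q).2 = c * q.2 := rfl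

lemma b_pos (b : Set.Ioi (1 : ℝ)) : (0 : ℝ) < b := lt_trans one_pos b.2

lemma NP_smul (c : ℝ) (v : PX b) : NP (c • v) = |c| * NP v := by
  unfold NP
  have h1 : (⟨(c • v).1, (c • v).2⟩ : ℂ) = c • (⟨v.1, v.2⟩ : ℂ) := by
    apply Complex.ext <;> simp [pfst_smul, psnd_smul]
  have h2 : (⟨(b : ℝ) * (c • v).1, (c • v).2 / b⟩ : ℂ) = c • (⟨(b : ℝ) * v.1, v.2 / b⟩ : ℂ) := by
    apply Complex.ext
    · simp only [pfst_smul, Complex.real_smul, Complex.re_ofReal_mul]; ring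
    · simp only [psnd_smul, Complex.real_smul, Complex.im_ofReal_mul]; ring
  rw [h1, h2, norm_smul, norm_smul, Real.norm_eq_abs, mul_max_of_nonneg _ _ (abs_nonneg c)]

lemma NP_add (v w : PX b) : NP (v + w) ≤ NP v + NP w := by
  unfold NP
  have h1 : (⟨(v + w).1, (v + w).2⟩ : ℂ) = (⟨v.1, v.2⟩ : ℂ) + ⟨w.1, w.2⟩ := by
    apply Complex.ext <;> simp [pfst_add, psnd_add]
  have h2 : (⟨(b : ℝ) * (v + w).1, (v + w).2 / b⟩ : ℂ)
      = (⟨(b : ℝ) * v.1, v.2 / b⟩ : ℂ) + ⟨(b : ℝ) * w.1, w.2 / b⟩ := by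
    apply Complex.ext
    · simp only [pfst_add, Complex.add_re]; ring
    · simp only [psnd_add, Complex.add_im]; ring
  rw [h1, h2]
  refine max_le ((norm_add_le _ _).trans ?_) ((norm_add_le _ _).trans ?_)
  · exact add_le_add (le_max_left _ _) (le_max_left _ _)
  · exact add_le_add (le_max_right _ _) (le_max_right _ _)

noncomputable def E1 (v : PX b) : ℝ := v.1 ^ 2 + v.2 ^ 2
noncomputable def E2 (v : PX b) : ℝ := (b : ℝ) ^ 2 * v.1 ^ 2 + v.2 ^ 2 / (b : ℝ) ^ 2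

lemma NP_nonneg (v : PX b) : 0 ≤ NP v := (norm_nonneg _).trans (le_max_left _ _)

lemma NP_sq (v : PX b) : NP v ^ 2 = max (E1 v) (E2 v) := by
  have h1 : ‖(⟨v.1, v.2⟩ : ℂ)‖ ^ 2 = E1 v := by
    rw [Complex.sq_norm, Complex.normSq_mk]; unfold E1; ring
  have h2 : ‖(⟨(b : ℝ) * v.1, v.2 / b⟩ : ℂ)‖ ^ 2 = E2 v := by
    rw [Complex.sq_norm, Complex.normSq_mk]; unfold E2; ring
  rw [← h1, ← h2]
  unfold NP
  rcases le_total ‖(⟨v.1, v.2⟩ : ℂ)‖ ‖(⟨(b : ℝ) * v.1, v.2 / b⟩ : ℂ)‖ with h | h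
  · rw [max_eq_right h, max_eq_right (by gcongr)]
  · rw [max_eq_left h, max_eq_left (by gcongr)]

noncomputable instance : Norm (PX b) := ⟨NP⟩

lemma pnorm_sq (v : PX b) : ‖v‖ ^ 2 = max (E1 v) (E2 v) := NP_sq v

lemma pcore : NormedSpace.Core ℝ (PX b) where
  norm_nonneg := NP_nonneg
  norm_smul c y := NP_smul c y
  norm_triangle x y := NP_add x y
  norm_eq_zero_iff y := by
    constructor
    · intro h
      have h1 : E1 y ≤ 0 := (le_max_left _ _).trans (by rw [← pnorm_sq, h]; simp)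
      unfold E1 at h1
      have h2 : y.1 = 0 := by nlinarith [sq_nonneg y.1, sq_nonneg y.2]
      have h3 : y.2 = 0 := by nlinarith [sq_nonneg y.1, sq_nonneg y.2]
      exact Prod.ext h2 h3
    · rintro rfl
      have := NP_smul (b := b) 0 0
      rw [zero_smul, abs_zero, zero_mul] at this
      exact this

noncomputable instance : NormedAddCommGroup (PX b) := NormedAddCommGroup.ofCore pcore
noncomputable instance : NormedSpace ℝ (PX b) := NormedSpace.ofCore pcore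

lemma E2_le (v : PX b) : E2 v ≤ (b : ℝ) ^ 2 * E1 v := by
  unfold E1 E2
  have hb : (1 : ℝ) < b := b.2
  have h1 : v.2 ^ 2 / (b : ℝ) ^ 2 ≤ v.2 ^ 2 := div_le_self (sq_nonneg _) (by nlinarith)
  have h2 : v.2 ^ 2 ≤ (b : ℝ) ^ 2 * v.2 ^ 2 :=
    le_mul_of_one_le_left (sq_nonneg _) (one_le_pow₀ hb.le)
  nlinarith

lemma E1_le (v : PX b) : E1 v ≤ (b : ℝ) ^ 2 * E2 v := by
  unfold E1 E2
  have hb : (1 : ℝ) < b := b.2
  have h0 : (b : ℝ) ≠ 0 := (b_pos b).ne'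
  have h1 : (b : ℝ) ^ 2 * ((b : ℝ) ^ 2 * v.1 ^ 2 + v.2 ^ 2 / (b : ℝ) ^ 2)
      = (b : ℝ) ^ 4 * v.1 ^ 2 + v.2 ^ 2 := by field_simp
  rw [h1]
  have h2 : 1 ≤ (b : ℝ) ^ 4 := one_le_pow₀ hb.le
  nlinarith [sq_nonneg v.1]

lemma E1_nonneg (v : PX b) : 0 ≤ E1 v := by unfold E1; positivity
lemma E2_nonneg (v : PX b) : 0 ≤ E2 v := by unfold E2; positivity

theorem pX_pos {c : ℝ} (hc : c * ((b : ℝ) ^ 2 - 1) = (b : ℝ) ^ 2 + 1) : HasAngle c (PX b) := by
  apply hasAngle_of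
  intro x y hx hy
  have hb : (1 : ℝ) < b := b.2
  have hx2 : max (E1 x) (E2 x) = 1 := by rw [← pnorm_sq, hx]; norm_num
  have hy2 : max (E1 y) (E2 y) = 1 := by rw [← pnorm_sq, hy]; norm_num
  have hx1 : E1 x ≤ 1 := (le_max_left _ _).trans hx2.le
  have hx3 : E2 x ≤ 1 := (le_max_right _ _).trans hx2.le
  have hy1 : E1 y ≤ 1 := (le_max_left _ _).trans hy2.le
  have hy3 : E2 y ≤ 1 := (le_max_right _ _).trans hy2.le
  have par1 : E1 (x + y) + E1 (x - y) = 2 * E1 x + 2 * E1 y := by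
    unfold E1
    rw [pfst_add, psnd_add, pfst_sub, psnd_sub]; ring
  have par2 : E2 (x + y) + E2 (x - y) = 2 * E2 x + 2 * E2 y := by
    unfold E2
    rw [pfst_add, psnd_add, pfst_sub, psnd_sub]; ring
  have key := pos_ineq (p := ‖x + y‖ ^ 2 / 4) (q := ‖x - y‖ ^ 2 / 4) (c := c) (a := (b : ℝ) ^ 2)
    (by nlinarith) hc (by positivity) (by positivity) (by
      have h1 : ‖x - y‖ ^ 2 ≤ (b : ℝ) ^ 2 * E1 (x - y) := by
        rw [pnorm_sq]
        refine max_le ?_ (E2_le _)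
        exact le_mul_of_one_le_left (E1_nonneg (x - y)) (one_le_pow₀ hb.le)
      have h2 : ‖x - y‖ ^ 2 ≤ (b : ℝ) ^ 2 * E2 (x - y) := by
        rw [pnorm_sq]
        refine max_le (E1_le _) ?_
        exact le_mul_of_one_le_left (E2_nonneg (x - y)) (one_le_pow₀ hb.le)
      rcases max_choice (E1 (x + y)) (E2 (x + y)) with h | h
      · rw [pnorm_sq (x + y), h]
        nlinarith
      · rw [pnorm_sq (x + y), h]
        nlinarith)
  convert key using 2 <;> ring_nf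

theorem pX_not {c c' : ℝ} (hc : c * ((b : ℝ) ^ 2 - 1) = (b : ℝ) ^ 2 + 1) (hcc : c < c') :
    ¬ HasAngle c' (PX b) := by
  have hb : (1 : ℝ) < b := b.2
  have hb0 : (0 : ℝ) < b := b_pos b
  set a : ℝ := (b : ℝ) ^ 2 with ha
  have ha1 : 1 < a := by rw [ha]; nlinarith
  have hc1 : 1 ≤ c := by
    by_contra hcon
    push Not at hcon
    nlinarith
  obtain ⟨σ, hσ0, hσ1, hσ2⟩ := exists_sigma (A := 1 + a) (D := c' * (a - 1)) (η := 1 / (a + 1))
    (by linarith) (by nlinarith) (by positivity)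
  have hσ3 : (a + 1) * σ < 1 := by
    rw [lt_div_iff₀ (by linarith)] at hσ1
    linarith
  have hσ4 : σ < 1 := by nlinarith
  set x1 : ℝ := Real.sqrt σ with hx1
  set x2 : ℝ := Real.sqrt (1 - σ) with hx2
  have h1 : x1 ^ 2 = σ := Real.sq_sqrt hσ0.le
  have h2 : x2 ^ 2 = 1 - σ := Real.sq_sqrt (by linarith)
  have hunit : ∀ e : ℝ, e ^ 2 = σ → ‖(show PX b from (e, x2))‖ = 1 := by
    intro e he
    have h3 : ‖(show PX b from (e, x2))‖ ^ 2 = 1 := by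
      rw [pnorm_sq]
      have h4 : E1 (show PX b from (e, x2)) = 1 := by
        show e ^ 2 + x2 ^ 2 = 1
        rw [he, h2]; ring
      have h5 : E2 (show PX b from (e, x2)) ≤ 1 := by
        show a * e ^ 2 + x2 ^ 2 / a ≤ 1
        rw [he, h2]
        have : a * σ + (1 - σ) / a = (a ^ 2 * σ + (1 - σ)) / a := by field_simp
        rw [this, div_le_one (by linarith)]
        nlinarith
      rw [h4, max_eq_left h5]
    nlinarith [norm_nonneg (show PX b from (e, x2))]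
  have hs : ‖(show PX b from (x1, x2)) + (show PX b from (-x1, x2))‖ ^ 2 = 4 * (1 - σ) := by
    rw [pnorm_sq]
    have e1 : E1 ((show PX b from (x1, x2)) + (show PX b from (-x1, x2))) = 4 * (1 - σ) := by
      show (x1 + -x1) ^ 2 + (x2 + x2) ^ 2 = _
      rw [← h2]; ring
    have e2 : E2 ((show PX b from (x1, x2)) + (show PX b from (-x1, x2))) = 4 * (1 - σ) / a := by
      show a * (x1 + -x1) ^ 2 + (x2 + x2) ^ 2 / a = _
      rw [← h2]; ring
    rw [e1, e2, max_eq_left (div_le_self (by linarith) (by linarith))]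
  have hd : ‖(show PX b from (x1, x2)) - (show PX b from (-x1, x2))‖ ^ 2 = 4 * (a * σ) := by
    rw [pnorm_sq]
    have e1 : E1 ((show PX b from (x1, x2)) - (show PX b from (-x1, x2))) = 4 * σ := by
      show (x1 - -x1) ^ 2 + (x2 - x2) ^ 2 = _
      rw [← h1]; ring
    have e2 : E2 ((show PX b from (x1, x2)) - (show PX b from (-x1, x2))) = 4 * (a * σ) := by
      show a * (x1 - -x1) ^ 2 + (x2 - x2) ^ 2 / a = _
      rw [← h1]; ring
    rw [e1, e2, max_eq_right (by nlinarith)]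
  apply not_hasAngle_of (hunit x1 h1) (hunit (-x1) (by rw [neg_sq]; exact h1))
  rw [hs, hd]
  have e3 : (4 * (1 - σ) - 4 * (a * σ)) / 4 = 1 - (1 + a) * σ := by ring
  have e4 : (4 * (1 - σ) + 4 * (a * σ)) / 4 = 1 + (a - 1) * σ := by ring
  rw [e3, e4]
  have h5 := bern (c := c') (s := (a - 1) * σ) (by linarith) (by nlinarith)
  have h6 : 0 < 1 - (1 + a) * σ := by linarith
  calc 1 < (1 - (1 + a) * σ) * (1 + c' * (a - 1) * σ) := hσ2
    _ ≤ (1 - (1 + a) * σ) * (1 + (a - 1) * σ) ^ c' := by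
        apply mul_le_mul_of_nonneg_left _ h6.le
        linarith

end PXsec


/-! ### The dual plane -/

/-- The plane. -/
def DX (_ : Set.Ioi (1 : ℝ)) : Type := ℝ × ℝ

section DXsec

variable (b : Set.Ioi (1 : ℝ))

noncomputable instance : AddCommGroup (DX b) := inferInstanceAs (AddCommGroup (ℝ × ℝ))
noncomputable instance : Module ℝ (DX b) := inferInstanceAs (Module ℝ (ℝ × ℝ))

/-- The dual unit ball. -/
def KD : Set (ℝ × ℝ) :=
  {f | f.1 ^ 2 + f.2 ^ 2 ≤ 1 ∧ (b : ℝ) ^ 2 * f.1 ^ 2 + f.2 ^ 2 / (b : ℝ) ^ 2 ≤ 1}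

variable {b}

def pr (f : ℝ × ℝ) (v : DX b) : ℝ := f.1 * v.1 + f.2 * v.2

noncomputable def ND (v : DX b) : ℝ := sSup ((fun f => pr f v) '' KD b)

lemma dfst_add (p q : DX b) : (p + q).1 = p.1 + q.1 := rfl
lemma dsnd_add (p q : DX b) : (p + q).2 = p.2 + q.2 := rfl
lemma dfst_sub (p q : DX b) : (p - q).1 = p.1 - q.1 := rfl
lemma dsnd_sub (p q : DX b) : (p - q).2 = p.2 - q.2 := rfl
lemma dfst_smul (c : ℝ) (q : DX b) : (c • q).1 = c * q.1 := rfl
lemma dsnd_smul (c : ℝ) (q : DX b) : (c • q).2 = c * q.2 := rfl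

lemma KD_zero : (0 : ℝ × ℝ) ∈ KD b := by
  constructor <;> simp

lemma KD_neg {f : ℝ × ℝ} (hf : f ∈ KD b) : -f ∈ KD b := by
  constructor
  · simpa using hf.1
  · simpa using hf.2

lemma sq_le_of_KD {f : ℝ × ℝ} (hf : f ∈ KD b) {A B : ℝ} (hA : 1 ≤ A) (hA' : A ≤ (b : ℝ) ^ 2)
    (hAB : A + (b : ℝ) ^ 2 * B = (b : ℝ) ^ 2 + 1) : A * f.1 ^ 2 + B * f.2 ^ 2 ≤ 1 := by
  have hb : (1 : ℝ) < b := b.2
  have hb2 : 0 < (b : ℝ) ^ 2 - 1 := by nlinarith
  have hbp : 0 < (b : ℝ) ^ 2 := by positivity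
  have h1 := mul_le_mul_of_nonneg_left hf.1 (sub_nonneg.2 hA')
  have h2 := mul_le_mul_of_nonneg_left hf.2 (sub_nonneg.2 hA)
  have h3 : ((b : ℝ) ^ 2 - 1) * (A * f.1 ^ 2 + B * f.2 ^ 2)
      = ((b : ℝ) ^ 2 - A) * (f.1 ^ 2 + f.2 ^ 2)
        + (A - 1) * ((b : ℝ) ^ 2 * f.1 ^ 2 + f.2 ^ 2 / (b : ℝ) ^ 2) := by
    have hB : B = ((b : ℝ) ^ 2 + 1 - A) / (b : ℝ) ^ 2 := by
      rw [eq_div_iff hbp.ne']; linarith
    rw [hB]
    field_simp
    ring
  have h4 : ((b : ℝ) ^ 2 - 1) * (A * f.1 ^ 2 + B * f.2 ^ 2) ≤ ((b : ℝ) ^ 2 - 1) * 1 := by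
    rw [h3]; linarith
  exact le_of_mul_le_mul_left h4 hb2

lemma B_bounds {A B : ℝ} (hA : 1 ≤ A) (hA' : A ≤ (b : ℝ) ^ 2)
    (hAB : A + (b : ℝ) ^ 2 * B = (b : ℝ) ^ 2 + 1) : 1 ≤ (b : ℝ) ^ 2 * B ∧ B ≤ 1 := by
  have hb : (1 : ℝ) < b := b.2
  have hbp : 0 < (b : ℝ) ^ 2 := by positivity
  refine ⟨by linarith, ?_⟩
  have : (b : ℝ) ^ 2 * B ≤ (b : ℝ) ^ 2 * 1 := by linarith
  exact le_of_mul_le_mul_left this hbp

lemma B_pos {A B : ℝ} (hA : 1 ≤ A) (hA' : A ≤ (b : ℝ) ^ 2)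
    (hAB : A + (b : ℝ) ^ 2 * B = (b : ℝ) ^ 2 + 1) : 0 < B := by
  have h1 := (B_bounds hA hA' hAB).1
  have hbp : 0 < (b : ℝ) ^ 2 := pow_pos (b_pos b) 2
  by_contra hcon
  push Not at hcon
  nlinarith

/-- Cauchy-Schwarz. -/
lemma pr_sq_le {f : ℝ × ℝ} (hf : f ∈ KD b) {A B : ℝ} (hA : 1 ≤ A) (hA' : A ≤ (b : ℝ) ^ 2)
    (hAB : A + (b : ℝ) ^ 2 * B = (b : ℝ) ^ 2 + 1) (v : DX b) :
    pr f v ^ 2 ≤ v.1 ^ 2 / A + v.2 ^ 2 / B := by
  have hA0 : 0 < A := by linarith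
  have hB0 := B_pos hA hA' hAB
  have h1 := sq_le_of_KD hf hA hA' hAB
  have h2 : 0 ≤ v.1 ^ 2 / A + v.2 ^ 2 / B := by positivity
  have h3 : pr f v ^ 2 ≤ (A * f.1 ^ 2 + B * f.2 ^ 2) * (v.1 ^ 2 / A + v.2 ^ 2 / B) := by
    have h4 : (A * f.1 ^ 2 + B * f.2 ^ 2) * (v.1 ^ 2 / A + v.2 ^ 2 / B) - pr f v ^ 2
        = (A * f.1 * v.2 - B * f.2 * v.1) ^ 2 / (A * B) := by
      unfold pr
      field_simp
      ring
    have h5 : 0 ≤ (A * f.1 * v.2 - B * f.2 * v.1) ^ 2 / (A * B) := by positivity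
    linarith
  nlinarith

lemma hb2 : (1 : ℝ) ≤ (b : ℝ) ^ 2 := one_le_pow₀ (le_of_lt b.2)

lemma hAB1 : (1 : ℝ) + (b : ℝ) ^ 2 * 1 = (b : ℝ) ^ 2 + 1 := by ring

lemma ND_bdd (v : DX b) : BddAbove ((fun f => pr f v) '' KD b) := by
  refine ⟨Real.sqrt (v.1 ^ 2 / 1 + v.2 ^ 2 / 1), ?_⟩
  rintro _ ⟨f, hf, rfl⟩
  exact (le_abs_self _).trans (Real.abs_le_sqrt (pr_sq_le hf le_rfl hb2 hAB1 v))

lemma le_ND {f : ℝ × ℝ} (hf : f ∈ KD b) (v : DX b) : pr f v ≤ ND v :=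
  le_csSup (ND_bdd v) ⟨f, hf, rfl⟩

lemma ND_le {v : DX b} {r : ℝ} (h : ∀ f ∈ KD b, pr f v ≤ r) : ND v ≤ r := by
  apply csSup_le (Set.Nonempty.image _ ⟨0, KD_zero⟩)
  rintro _ ⟨f, hf, rfl⟩
  exact h f hf

lemma ND_nonneg (v : DX b) : 0 ≤ ND v := by
  have := le_ND (b := b) KD_zero v
  simpa [pr] using this

lemma ND_sq_le (v : DX b) {A B : ℝ} (hA : 1 ≤ A) (hA' : A ≤ (b : ℝ) ^ 2)
    (hAB : A + (b : ℝ) ^ 2 * B = (b : ℝ) ^ 2 + 1) : ND v ^ 2 ≤ v.1 ^ 2 / A + v.2 ^ 2 / B := by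
  have hA0 : 0 < A := by linarith
  have hB0 := B_pos hA hA' hAB
  have h2 : 0 ≤ v.1 ^ 2 / A + v.2 ^ 2 / B := by positivity
  have h1 : ND v ≤ Real.sqrt (v.1 ^ 2 / A + v.2 ^ 2 / B) :=
    ND_le fun f hf => (le_abs_self _).trans (Real.abs_le_sqrt (pr_sq_le hf hA hA' hAB v))
  calc ND v ^ 2 ≤ Real.sqrt (v.1 ^ 2 / A + v.2 ^ 2 / B) ^ 2 := by
        gcongr
        exact ND_nonneg v
    _ = _ := Real.sq_sqrt h2

lemma ND_smul_le (c : ℝ) (v : DX b) : ND (c • v) ≤ |c| * ND v := by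
  refine ND_le fun f hf => ?_
  have h1 : pr f (c • v) = c * pr f v := by
    unfold pr; rw [dfst_smul, dsnd_smul]; ring
  rw [h1]
  have h2 := le_ND hf v
  have h3 := le_ND (KD_neg hf) v
  have h4 : pr (-f) v = - pr f v := by
    unfold pr; simp only [Prod.fst_neg, Prod.snd_neg]; ring
  rw [h4] at h3
  rcases le_total 0 c with h | h
  · rw [abs_of_nonneg h]
    exact mul_le_mul_of_nonneg_left h2 h
  · rw [abs_of_nonpos h]
    nlinarith

lemma ND_smul (c : ℝ) (y : DX b) : ND (c • y) = |c| * ND y := by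
  refine le_antisymm (ND_smul_le c y) ?_
  rcases eq_or_ne c 0 with rfl | hc
  · simp [ND_nonneg]
  · have h := ND_smul_le c⁻¹ (c • y)
    rw [smul_smul, inv_mul_cancel₀ hc, one_smul, abs_inv] at h
    have h2 : 0 < |c| := abs_pos.2 hc
    calc |c| * ND y ≤ |c| * (|c|⁻¹ * ND (c • y)) := by gcongr
      _ = ND (c • y) := by field_simp

lemma ND_add (v w : DX b) : ND (v + w) ≤ ND v + ND w := by
  refine ND_le fun f hf => ?_
  have h1 : pr f (v + w) = pr f v + pr f w := by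
    unfold pr; rw [dfst_add, dsnd_add]; ring
  rw [h1]
  exact add_le_add (le_ND hf v) (le_ND hf w)

lemma KD_fst : ((1 / (b : ℝ), 0) : ℝ × ℝ) ∈ KD b := by
  have hb : (1 : ℝ) < b := b.2
  have hb0 := b_pos b
  constructor
  · show (1 / (b : ℝ)) ^ 2 + 0 ^ 2 ≤ 1
    rw [div_pow, one_pow]
    have : 1 / (b : ℝ) ^ 2 ≤ 1 := (div_le_one (by positivity)).2 hb2
    linarith
  · show (b : ℝ) ^ 2 * (1 / (b : ℝ)) ^ 2 + 0 ^ 2 / (b : ℝ) ^ 2 ≤ 1
    rw [div_pow, one_pow]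
    have : (b : ℝ) ^ 2 * (1 / (b : ℝ) ^ 2) = 1 := by field_simp
    rw [this]; simp

lemma KD_snd : ((0, 1) : ℝ × ℝ) ∈ KD b := by
  have hb : (1 : ℝ) < b := b.2
  have hb0 := b_pos b
  constructor
  · show (0 : ℝ) ^ 2 + 1 ^ 2 ≤ 1
    norm_num
  · show (b : ℝ) ^ 2 * 0 ^ 2 + 1 ^ 2 / (b : ℝ) ^ 2 ≤ 1
    have : 1 / (b : ℝ) ^ 2 ≤ 1 := (div_le_one (by positivity)).2 hb2
    simpa using this

lemma abs_fst_le (v : DX b) : |v.1| / b ≤ ND v := by
  have h1 := le_ND KD_fst v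
  have h2 := le_ND (KD_neg KD_fst) v
  unfold pr at h1 h2
  simp only [Prod.fst_neg, Prod.snd_neg] at h2
  rcases abs_cases v.1 with ⟨h, _⟩ | ⟨h, _⟩
  · rw [h]; calc v.1 / b = 1 / (b : ℝ) * v.1 + 0 * v.2 := by ring
      _ ≤ _ := h1
  · rw [h]; calc -v.1 / b = -(1 / (b : ℝ)) * v.1 + -0 * v.2 := by ring
      _ ≤ _ := h2

lemma abs_snd_le (v : DX b) : |v.2| ≤ ND v := by
  have h1 := le_ND KD_snd v
  have h2 := le_ND (KD_neg KD_snd) v
  unfold pr at h1 h2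
  simp only [Prod.fst_neg, Prod.snd_neg] at h2
  rcases abs_cases v.2 with ⟨h, _⟩ | ⟨h, _⟩
  · rw [h]; linarith
  · rw [h]; linarith

noncomputable instance : Norm (DX b) := ⟨ND⟩

lemma dnorm_def (v : DX b) : ‖v‖ = ND v := rfl

lemma dcore : NormedSpace.Core ℝ (DX b) where
  norm_nonneg := ND_nonneg
  norm_smul c y := ND_smul c y
  norm_triangle x y := ND_add x y
  norm_eq_zero_iff y := by
    constructor
    · intro h
      have h0 : ND y = 0 := h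
      have h1 := abs_fst_le y
      have h2 := abs_snd_le y
      rw [h0] at h1 h2
      have h3 : |y.1| ≤ 0 := by
        rw [div_le_iff₀ (b_pos b)] at h1
        linarith
      exact Prod.ext (abs_nonpos_iff.1 h3) (abs_nonpos_iff.1 h2)
    · rintro rfl
      have := ND_smul (b := b) 0 0
      rw [zero_smul, abs_zero, zero_mul] at this
      exact this

noncomputable instance : NormedAddCommGroup (DX b) := NormedAddCommGroup.ofCore dcore
noncomputable instance : NormedSpace ℝ (DX b) := NormedSpace.ofCore dcore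

/-- Criterion for equality in the bound `ND_sq_le`. -/
lemma le_ND_sq (v : DX b) {A B : ℝ} (hA : 0 < A) (hB : 0 < B) (u z : ℝ) (hu : v.1 = A * u)
    (hz : v.2 = B * z) (h1 : u ^ 2 + z ^ 2 ≤ A * u ^ 2 + B * z ^ 2)
    (h2 : (b : ℝ) ^ 2 * u ^ 2 + z ^ 2 / (b : ℝ) ^ 2 ≤ A * u ^ 2 + B * z ^ 2) :
    v.1 ^ 2 / A + v.2 ^ 2 / B ≤ ND v ^ 2 := by
  have e1 : v.1 ^ 2 / A + v.2 ^ 2 / B = A * u ^ 2 + B * z ^ 2 := by
    rw [hu, hz]; field_simp
  rw [e1]
  set H := A * u ^ 2 + B * z ^ 2 with hH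
  have hH0 : 0 ≤ H := by positivity
  rcases hH0.eq_or_lt with h0 | h0
  · rw [← h0]; positivity
  · set h := Real.sqrt H with hh
    have hpos : 0 < h := Real.sqrt_pos.2 h0
    have hsq : h ^ 2 = H := Real.sq_sqrt hH0
    have hf : ((u / h, z / h) : ℝ × ℝ) ∈ KD b := by
      constructor
      · show (u / h) ^ 2 + (z / h) ^ 2 ≤ 1
        rw [div_pow, div_pow, ← add_div, hsq, div_le_one h0]
        exact h1
      · show (b : ℝ) ^ 2 * (u / h) ^ 2 + (z / h) ^ 2 / (b : ℝ) ^ 2 ≤ 1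
        have : (b : ℝ) ^ 2 * (u / h) ^ 2 + (z / h) ^ 2 / (b : ℝ) ^ 2
            = ((b : ℝ) ^ 2 * u ^ 2 + z ^ 2 / (b : ℝ) ^ 2) / h ^ 2 := by
          rw [div_pow, div_pow]; ring
        rw [this, hsq, div_le_one h0]
        exact h2
    have h3 := le_ND hf v
    have h4 : pr ((u / h, z / h) : ℝ × ℝ) v = h := by
      show u / h * v.1 + z / h * v.2 = h
      rw [hu, hz]
      have : u / h * (A * u) + z / h * (B * z) = H / h := by rw [hH]; ring
      rw [this, ← hsq]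
      field_simp
    rw [h4] at h3
    rw [← hsq]
    gcongr

lemma exists_form (v : DX b) : ∃ A B : ℝ, 1 ≤ A ∧ A ≤ (b : ℝ) ^ 2 ∧
    A + (b : ℝ) ^ 2 * B = (b : ℝ) ^ 2 + 1 ∧ ND v ^ 2 = v.1 ^ 2 / A + v.2 ^ 2 / B := by
  have hb : (1 : ℝ) < b := b.2
  have hb0 := b_pos b
  have hb1 : 0 < (b : ℝ) ^ 2 - 1 := by nlinarith
  suffices h : ∃ A B : ℝ, 1 ≤ A ∧ A ≤ (b : ℝ) ^ 2 ∧
      A + (b : ℝ) ^ 2 * B = (b : ℝ) ^ 2 + 1 ∧ v.1 ^ 2 / A + v.2 ^ 2 / B ≤ ND v ^ 2 by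
    obtain ⟨A, B, h1, h2, h3, h4⟩ := h
    exact ⟨A, B, h1, h2, h3, le_antisymm (ND_sq_le v h1 h2 h3) h4⟩
  rcases le_or_gt ((b : ℝ) ^ 2 * v.1 ^ 2) (v.2 ^ 2) with hc | hc
  · refine ⟨1, 1, le_rfl, hb2, hAB1, le_ND_sq v one_pos one_pos v.1 v.2 (by ring) (by ring)
      (by linarith) ?_⟩
    have : (b : ℝ) ^ 2 * v.1 ^ 2 + v.2 ^ 2 / (b : ℝ) ^ 2 - (1 * v.1 ^ 2 + 1 * v.2 ^ 2)
        = ((b : ℝ) ^ 2 - 1) * ((b : ℝ) ^ 2 * v.1 ^ 2 - v.2 ^ 2) / (b : ℝ) ^ 2 := by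
      field_simp; ring
    have h2 : ((b : ℝ) ^ 2 - 1) * ((b : ℝ) ^ 2 * v.1 ^ 2 - v.2 ^ 2) / (b : ℝ) ^ 2 ≤ 0 := by
      apply div_nonpos_of_nonpos_of_nonneg
      · nlinarith
      · positivity
    linarith
  rcases le_or_gt ((b : ℝ) ^ 6 * v.2 ^ 2) (v.1 ^ 2) with hd | hd
  · refine ⟨(b : ℝ) ^ 2, 1 / (b : ℝ) ^ 2, hb2, le_rfl, by field_simp,
      le_ND_sq v (by positivity) (by positivity) (v.1 / (b : ℝ) ^ 2) ((b : ℝ) ^ 2 * v.2)
      (by field_simp) (by field_simp) ?_ ?_⟩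
    · have : (v.1 / (b : ℝ) ^ 2) ^ 2 + ((b : ℝ) ^ 2 * v.2) ^ 2
          - ((b : ℝ) ^ 2 * (v.1 / (b : ℝ) ^ 2) ^ 2 + 1 / (b : ℝ) ^ 2 * ((b : ℝ) ^ 2 * v.2) ^ 2)
          = ((b : ℝ) ^ 2 - 1) * ((b : ℝ) ^ 6 * v.2 ^ 2 - v.1 ^ 2) / (b : ℝ) ^ 4 := by
        field_simp; ring
      have h2 : ((b : ℝ) ^ 2 - 1) * ((b : ℝ) ^ 6 * v.2 ^ 2 - v.1 ^ 2) / (b : ℝ) ^ 4 ≤ 0 := by
        apply div_nonpos_of_nonpos_of_nonneg
        · nlinarith
        · positivity
      linarith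
    · apply le_of_eq
      field_simp
  · -- the corner region
    set t := |v.1| with ht
    set w := |v.2| with hw
    have ht2 : t ^ 2 = v.1 ^ 2 := sq_abs _
    have hw2 : w ^ 2 = v.2 ^ 2 := sq_abs _
    have ht0 : 0 ≤ t := abs_nonneg _
    have hw0 : 0 ≤ w := abs_nonneg _
    have hwt : w ≤ b * t := by
      apply le_of_lt
      apply lt_of_pow_lt_pow_left₀ 2 (by positivity)
      rw [mul_pow, ht2, hw2]; exact hc
    have htw : t ≤ (b : ℝ) ^ 3 * w := by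
      apply le_of_lt
      apply lt_of_pow_lt_pow_left₀ 2 (by positivity)
      rw [mul_pow, ht2, hw2, ← pow_mul]; exact hd
    have ht1 : 0 < t := by
      rcases ht0.eq_or_lt with h | h
      · exfalso
        rw [← ht2, ← h] at hc
        nlinarith [sq_nonneg v.2]
      · exact h
    have hw1 : 0 < w := by
      rcases hw0.eq_or_lt with h | h
      · exfalso
        rw [← hw2, ← h] at hd
        nlinarith [sq_nonneg v.1]
      · exact h
    set M := t + b * w with hM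
    have hM0 : 0 < M := by positivity
    set A := t * ((b : ℝ) ^ 2 + 1) / M with hAdef
    set B := w * ((b : ℝ) ^ 2 + 1) / (b * M) with hBdef
    have hA0 : 0 < A := by positivity
    have hB0 : 0 < B := by positivity
    have hA1 : 1 ≤ A := by
      rw [hAdef, le_div_iff₀ hM0, hM]
      nlinarith
    have hA2 : A ≤ (b : ℝ) ^ 2 := by
      rw [hAdef, div_le_iff₀ hM0, hM]
      nlinarith
    have hAB : A + (b : ℝ) ^ 2 * B = (b : ℝ) ^ 2 + 1 := by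
      rw [hAdef, hBdef]
      field_simp
      rw [hM]
    set m := M / ((b : ℝ) ^ 2 + 1) with hm
    have hm0 : 0 < m := by positivity
    have hAm : A * m = t := by rw [hAdef, hm]; field_simp
    have hBm : B * (b * m) = w := by rw [hBdef, hm]; field_simp
    -- signs
    obtain ⟨s1, hs1, hs1'⟩ : ∃ s : ℝ, s ^ 2 = 1 ∧ v.1 = s * t := by
      rcases abs_cases v.1 with ⟨h, _⟩ | ⟨h, _⟩
      · exact ⟨1, by norm_num, by rw [ht, h]; ring⟩
      · exact ⟨-1, by norm_num, by rw [ht, h]; ring⟩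
    obtain ⟨s2, hs2, hs2'⟩ : ∃ s : ℝ, s ^ 2 = 1 ∧ v.2 = s * w := by
      rcases abs_cases v.2 with ⟨h, _⟩ | ⟨h, _⟩
      · exact ⟨1, by norm_num, by rw [hw, h]; ring⟩
      · exact ⟨-1, by norm_num, by rw [hw, h]; ring⟩
    have hH : A * (s1 * m) ^ 2 + B * (s2 * (b * m)) ^ 2 = (1 + (b : ℝ) ^ 2) * m ^ 2 := by
      have e1 : A * (s1 * m) ^ 2 + B * (s2 * (b * m)) ^ 2
          = s1 ^ 2 * ((A * m) * m) + s2 ^ 2 * ((B * (b * m)) * (b * m)) := by ring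
      rw [e1, hs1, hs2, hAm, hBm]
      have e2 : 1 * (t * m) + 1 * (w * (b * m)) = M * m := by rw [hM]; ring
      have e3 : M = ((b : ℝ) ^ 2 + 1) * m := by rw [hm]; field_simp
      rw [e2, e3]; ring
    refine ⟨A, B, hA1, hA2, hAB, le_ND_sq v hA0 hB0 (s1 * m) (s2 * (b * m)) ?_ ?_ ?_ ?_⟩
    · rw [hs1', ← hAm]; ring
    · rw [hs2', ← hBm]; ring
    · rw [hH, mul_pow, mul_pow, hs1, hs2]
      apply le_of_eq
      ring
    · rw [hH, mul_pow, mul_pow, hs1, hs2]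
      apply le_of_eq
      field_simp
      ring


theorem dX_neg {c : ℝ} (hc : c * ((b : ℝ) ^ 2 - 1) = (b : ℝ) ^ 2 + 1) :
    HasAngle (-c) (DX b) := by
  apply hasAngle_of
  intro x y hx hy
  have hb : (1 : ℝ) < b := b.2
  obtain ⟨A, B, h1, h2, h3, h4⟩ := exists_form (x + y)
  have hA0 : 0 < A := by linarith
  have hB0 := B_pos h1 h2 h3
  have hBB := B_bounds h1 h2 h3
  have hx' : 1 ≤ x.1 ^ 2 / A + x.2 ^ 2 / B := by
    have := ND_sq_le x h1 h2 h3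
    rw [← dnorm_def, hx] at this
    linarith
  have hy' : 1 ≤ y.1 ^ 2 / A + y.2 ^ 2 / B := by
    have := ND_sq_le y h1 h2 h3
    rw [← dnorm_def, hy] at this
    linarith
  have par : (x + y).1 ^ 2 / A + (x + y).2 ^ 2 / B + ((x - y).1 ^ 2 / A + (x - y).2 ^ 2 / B)
      = 2 * (x.1 ^ 2 / A + x.2 ^ 2 / B) + 2 * (y.1 ^ 2 / A + y.2 ^ 2 / B) := by
    rw [dfst_add, dsnd_add, dfst_sub, dsnd_sub]; ring
  have hrat : (x - y).1 ^ 2 / A + (x - y).2 ^ 2 / B ≤ (b : ℝ) ^ 2 * ‖x - y‖ ^ 2 := by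
    obtain ⟨A', B', h1', h2', h3', h4'⟩ := exists_form (x - y)
    rw [dnorm_def, h4']
    have hA0' : 0 < A' := by linarith
    have hB0' := B_pos h1' h2' h3'
    have hBB' := B_bounds h1' h2' h3'
    have k1 : (x - y).1 ^ 2 / A ≤ (b : ℝ) ^ 2 * ((x - y).1 ^ 2 / A') := by
      rw [← mul_div_assoc, div_le_div_iff₀ hA0 hA0']
      have : A' ≤ (b : ℝ) ^ 2 * A := by nlinarith [hb2 (b := b)]
      nlinarith [mul_le_mul_of_nonneg_left this (sq_nonneg (x - y).1)]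
    have k2 : (x - y).2 ^ 2 / B ≤ (b : ℝ) ^ 2 * ((x - y).2 ^ 2 / B') := by
      rw [← mul_div_assoc, div_le_div_iff₀ hB0 hB0']
      have : B' ≤ (b : ℝ) ^ 2 * B := by linarith [hBB.1, hBB'.2]
      nlinarith [mul_le_mul_of_nonneg_left this (sq_nonneg (x - y).2)]
    linarith
  have hs2 : ‖x + y‖ ≤ 2 := by
    have := norm_add_le x y
    rw [hx, hy] at this
    linarith
  have hsum : ‖x + y‖ ^ 2 = (x + y).1 ^ 2 / A + (x + y).2 ^ 2 / B := h4
  have hmain : 4 ≤ ‖x + y‖ ^ 2 + (b : ℝ) ^ 2 * ‖x - y‖ ^ 2 := by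
    rw [hsum]; linarith
  have hP : 0 < ‖x + y‖ ^ 2 / 4 + ‖x - y‖ ^ 2 / 4 := by
    by_contra hcon
    push Not at hcon
    have h5 : ‖x + y‖ ^ 2 = 0 := by nlinarith [sq_nonneg ‖x + y‖, sq_nonneg ‖x - y‖]
    have h6 : ‖x - y‖ ^ 2 = 0 := by nlinarith [sq_nonneg ‖x + y‖, sq_nonneg ‖x - y‖]
    rw [h5, h6] at hmain
    linarith
  have key := neg_ineq (p := ‖x + y‖ ^ 2 / 4) (q := ‖x - y‖ ^ 2 / 4) (c := c) (ν := (b : ℝ) ^ 2)
    (by nlinarith) hc (by positivity)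
    (by nlinarith [norm_nonneg (x + y)]) hP (by linarith)
  convert key using 2 <;> ring_nf

/-- Norms of vectors on the axes. -/
lemma dnorm_snd (r : ℝ) : ‖(show DX b from (0, r))‖ ^ 2 = r ^ 2 := by
  rw [dnorm_def]
  refine le_antisymm ?_ ?_
  · have := ND_sq_le (show DX b from (0, r)) le_rfl hb2 hAB1
    refine this.trans (le_of_eq ?_)
    show (0 : ℝ) ^ 2 / 1 + r ^ 2 / 1 = r ^ 2
    ring
  · have := abs_snd_le (show DX b from (0, r))
    calc r ^ 2 = |r| ^ 2 := (sq_abs r).symm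
      _ ≤ _ := by gcongr

lemma dnorm_fst (r : ℝ) : ‖(show DX b from (r, 0))‖ ^ 2 = r ^ 2 / (b : ℝ) ^ 2 := by
  have hb0 := b_pos b
  rw [dnorm_def]
  refine le_antisymm ?_ ?_
  · have := ND_sq_le (show DX b from (r, 0)) (A := (b : ℝ) ^ 2) (B := 1 / (b : ℝ) ^ 2) hb2 le_rfl
      (by field_simp)
    refine this.trans (le_of_eq ?_)
    show r ^ 2 / (b : ℝ) ^ 2 + (0 : ℝ) ^ 2 / (1 / (b : ℝ) ^ 2) = r ^ 2 / (b : ℝ) ^ 2
    simp
  · have := abs_fst_le (show DX b from (r, 0))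
    calc r ^ 2 / (b : ℝ) ^ 2 = (|r| / b) ^ 2 := by rw [div_pow, sq_abs]
      _ ≤ _ := by gcongr

theorem dX_not_neg {c c' : ℝ} (hc : c * ((b : ℝ) ^ 2 - 1) = (b : ℝ) ^ 2 + 1) (hcc : c < c') :
    ¬ HasAngle (-c') (DX b) := by
  have hb : (1 : ℝ) < b := b.2
  have hb0 : (0 : ℝ) < b := b_pos b
  set a : ℝ := (b : ℝ) ^ 2 with ha
  have ha1 : 1 < a := by rw [ha]; nlinarith
  have ha0 : 0 < a := by linarith
  have hc1 : 1 ≤ c := by
    by_contra hcon
    push Not at hcon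
    nlinarith
  obtain ⟨σ, hσ0, hσ1, hσ2⟩ := exists_sigma (A := 1 + 1 / a) (D := c' * (1 - 1 / a))
    (η := 1 / (a + 1)) (by positivity) (by
      have h1 : c * (1 - 1 / a) = 1 + 1 / a := by field_simp; linarith
      have h2 : 0 < 1 - 1 / a := by
        have : 1 / a < 1 := (div_lt_one ha0).2 ha1
        linarith
      rw [← h1]
      exact mul_lt_mul_of_pos_right hcc h2) (by positivity)
  have hσ3 : (a + 1) * σ < 1 := by
    rw [lt_div_iff₀ (by linarith)] at hσ1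
    linarith
  have hσ4 : σ < 1 := by nlinarith
  set x1 : ℝ := Real.sqrt σ with hx1
  set x2 : ℝ := Real.sqrt (1 - σ) with hx2
  have h1 : x1 ^ 2 = σ := Real.sq_sqrt hσ0.le
  have h2 : x2 ^ 2 = 1 - σ := Real.sq_sqrt (by linarith)
  have hunit : ∀ e : ℝ, e ^ 2 = σ → ‖(show DX b from (e, x2))‖ = 1 := by
    intro e he
    have h3 : ‖(show DX b from (e, x2))‖ ^ 2 = 1 := by
      rw [dnorm_def]
      refine le_antisymm ?_ ?_
      · have := ND_sq_le (show DX b from (e, x2)) le_rfl hb2 hAB1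
        refine this.trans (le_of_eq ?_)
        show e ^ 2 / 1 + x2 ^ 2 / 1 = 1
        rw [he, h2]; ring
      · have := le_ND_sq (show DX b from (e, x2)) one_pos one_pos e x2 (one_mul e).symm
          (one_mul x2).symm (by linarith) (by
            rw [he, h2, ← ha]
            have e1 : a * σ + (1 - σ) / a = (a ^ 2 * σ + (1 - σ)) / a := by field_simp
            rw [e1, div_le_iff₀ ha0]
            nlinarith)
        refine le_trans (le_of_eq ?_) this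
        show 1 = e ^ 2 / 1 + x2 ^ 2 / 1
        rw [he, h2]; ring
    nlinarith [norm_nonneg (show DX b from (e, x2))]
  have hs : ‖(show DX b from (x1, x2)) + (show DX b from (-x1, x2))‖ ^ 2 = 4 * (1 - σ) := by
    have e1 : (show DX b from (x1, x2)) + (show DX b from (-x1, x2))
        = (show DX b from (0, 2 * x2)) :=
      Prod.ext (show x1 + -x1 = 0 by ring) (show x2 + x2 = 2 * x2 by ring)
    rw [e1, dnorm_snd, mul_pow, h2]; ring
  have hd : ‖(show DX b from (x1, x2)) - (show DX b from (-x1, x2))‖ ^ 2 = 4 * (σ / a) := by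
    have e1 : (show DX b from (x1, x2)) - (show DX b from (-x1, x2))
        = (show DX b from (2 * x1, 0)) :=
      Prod.ext (show x1 - -x1 = 2 * x1 by ring) (show x2 - x2 = 0 by ring)
    rw [e1, dnorm_fst, mul_pow, h1]; ring
  apply not_hasAngle_of (hunit x1 h1) (hunit (-x1) (by rw [neg_sq]; exact h1))
  rw [hs, hd]
  set z : ℝ := (1 - 1 / a) * σ with hz
  have hz0 : 0 ≤ z := by
    have : 1 / a < 1 := (div_lt_one ha0).2 ha1
    have h3 : 0 < 1 - 1 / a := by linarith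
    positivity
  have hz1 : z < 1 := by
    have : 0 < 1 / a := by positivity
    rw [hz]; nlinarith
  have e3 : (4 * (1 - σ) - 4 * (σ / a)) / 4 = 1 - (1 + 1 / a) * σ := by ring
  have e4 : (4 * (1 - σ) + 4 * (σ / a)) / 4 = 1 - z := by rw [hz]; ring
  rw [e3, e4]
  have h5 := bern (c := c') (s := 1 / (1 - z) - 1) (by linarith) (by
    have : 0 < 1 / (1 - z) := by
      have : 0 < 1 - z := by linarith
      positivity
    linarith)
  have e5 : 1 + (1 / (1 - z) - 1) = (1 - z)⁻¹ := by ring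
  rw [e5, Real.inv_rpow (by linarith), ← Real.rpow_neg (by linarith)] at h5
  have e6 : z ≤ 1 / (1 - z) - 1 := by
    have h6 : 0 < 1 - z := by linarith
    have h7 : 1 / (1 - z) - 1 = z / (1 - z) := by field_simp; ring
    rw [h7, le_div_iff₀ h6]
    nlinarith
  have h6 : 0 < 1 - (1 + 1 / a) * σ := by
    have : 1 / a < 1 := (div_lt_one ha0).2 ha1
    nlinarith
  calc 1 < (1 - (1 + 1 / a) * σ) * (1 + c' * (1 - 1 / a) * σ) := hσ2
    _ ≤ (1 - (1 + 1 / a) * σ) * (1 - z) ^ (-c') := by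
        apply mul_le_mul_of_nonneg_left _ h6.le
        have : c' * (1 - 1 / a) * σ = c' * z := by rw [hz]; ring
        rw [this]
        nlinarith

/-- The norm is linear on the corner region. -/
lemma corner {v : DX b} (h1 : 0 < v.1) (h2 : 0 < v.2) (h3 : v.2 ≤ b * v.1)
    (h4 : v.1 ≤ (b : ℝ) ^ 3 * v.2) : ‖v‖ = (v.1 + b * v.2) / Real.sqrt ((b : ℝ) ^ 2 + 1) := by
  have hb : (1 : ℝ) < b := b.2
  have hb0 : (0 : ℝ) < b := b_pos b
  set R := Real.sqrt ((b : ℝ) ^ 2 + 1) with hR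
  have hR0 : 0 < R := Real.sqrt_pos.2 (by positivity)
  have hR2 : R ^ 2 = (b : ℝ) ^ 2 + 1 := Real.sq_sqrt (by positivity)
  set M := v.1 + b * v.2 with hM
  have hM0 : 0 < M := by positivity
  rw [dnorm_def]
  refine le_antisymm ?_ ?_
  · have hA1 : 1 ≤ v.1 * ((b : ℝ) ^ 2 + 1) / M := by
      rw [le_div_iff₀ hM0, hM]
      nlinarith
    have hA2 : v.1 * ((b : ℝ) ^ 2 + 1) / M ≤ (b : ℝ) ^ 2 := by
      rw [div_le_iff₀ hM0, hM]
      nlinarith
    have hAB : v.1 * ((b : ℝ) ^ 2 + 1) / M + (b : ℝ) ^ 2 * (v.2 * ((b : ℝ) ^ 2 + 1) / (b * M))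
        = (b : ℝ) ^ 2 + 1 := by
      field_simp
      rw [hM]
    have h5 := ND_sq_le v hA1 hA2 hAB
    have h6 : v.1 ^ 2 / (v.1 * ((b : ℝ) ^ 2 + 1) / M) + v.2 ^ 2 / (v.2 * ((b : ℝ) ^ 2 + 1) / (b * M))
        = (M / R) ^ 2 := by
      rw [div_pow, hR2]
      field_simp
      rw [hM]
    rw [h6] at h5
    exact (sq_le_sq₀ (ND_nonneg v) (by positivity)).1 h5
  · have hf : ((1 / R, b / R) : ℝ × ℝ) ∈ KD b := by
      constructor
      · show (1 / R) ^ 2 + (b / R) ^ 2 ≤ 1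
        rw [div_pow, div_pow, hR2, ← add_div, div_le_one (by positivity)]
        linarith
      · show (b : ℝ) ^ 2 * (1 / R) ^ 2 + (b / R) ^ 2 / (b : ℝ) ^ 2 ≤ 1
        have : (b : ℝ) ^ 2 * (1 / R) ^ 2 + (b / R) ^ 2 / (b : ℝ) ^ 2 = ((b : ℝ) ^ 2 + 1) / R ^ 2 := by
          field_simp
        rw [this, hR2, div_self (by positivity)]
    have := le_ND hf v
    refine le_trans (le_of_eq ?_) this
    show M / R = 1 / R * v.1 + b / R * v.2
    rw [hM]; ring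

theorem dX_not_pos {c : ℝ} (hc : 1 < c) : ¬ HasAngle c (DX b) := by
  have hb : (1 : ℝ) < b := b.2
  have hb0 : (0 : ℝ) < b := b_pos b
  set R := Real.sqrt ((b : ℝ) ^ 2 + 1) with hR
  have hR0 : 0 < R := Real.sqrt_pos.2 (by positivity)
  have hR2 : R ^ 2 = (b : ℝ) ^ 2 + 1 := Real.sq_sqrt (by positivity)
  set k : ℝ := R / ((b : ℝ) ^ 2 + b) with hk
  have hk0 : 0 < k := by positivity
  have hkR : k * ((b : ℝ) ^ 2 + b) = R := by rw [hk]; field_simp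
  -- the size of the perturbation
  set e0 : ℝ := min (k * b * (b - 1) / (1 + (b : ℝ) ^ 2)) (min (k / 2) 1) with he0
  have he0p : 0 < e0 := by
    refine lt_min ?_ (lt_min (by linarith) one_pos)
    have : 0 < (b : ℝ) - 1 := by linarith
    positivity
  set e : ℝ := min e0 ((c - 1) / (c * ((b : ℝ) ^ 2 + 1))) with he
  have hep : 0 < e := by
    refine lt_min he0p ?_
    have : 0 < c - 1 := by linarith
    positivity
  have he1 : e * (1 + (b : ℝ) ^ 2) ≤ k * b * (b - 1) := by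
    have : e ≤ k * b * (b - 1) / (1 + (b : ℝ) ^ 2) := (min_le_left _ _).trans (min_le_left _ _)
    rwa [le_div_iff₀ (by positivity)] at this
  have he2 : e < k := by
    have : e ≤ k / 2 := (min_le_left _ _).trans ((min_le_right _ _).trans (min_le_left _ _))
    linarith
  have he3 : e ≤ 1 := (min_le_left _ _).trans ((min_le_right _ _).trans (min_le_right _ _))
  have he4 : e * (c * ((b : ℝ) ^ 2 + 1)) ≤ c - 1 := by
    have : e ≤ (c - 1) / (c * ((b : ℝ) ^ 2 + 1)) := min_le_right _ _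
    rwa [le_div_iff₀ (by positivity)] at this
  set v : DX b := (k * (b : ℝ) ^ 2, k) with hv
  set w : DX b := (k * (b : ℝ) ^ 2 + e * b, k - e) with hw
  have hv1 : v.1 = k * (b : ℝ) ^ 2 := rfl
  have hv2 : v.2 = k := rfl
  have hw1 : w.1 = k * (b : ℝ) ^ 2 + e * b := rfl
  have hw2 : w.2 = k - e := rfl
  have hb3 : (b : ℝ) ^ 2 ≤ (b : ℝ) ^ 3 := pow_le_pow_right₀ hb.le (by norm_num)
  have hb31 : 1 ≤ (b : ℝ) ^ 3 := one_le_pow₀ hb.le
  have hnv : ‖v‖ = 1 := by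
    rw [corner (v := v) (by rw [hv1]; positivity) (by rw [hv2]; exact hk0)
      (by rw [hv1, hv2]; nlinarith) (by rw [hv1, hv2]; nlinarith), hv1, hv2, ← hR]
    have : k * (b : ℝ) ^ 2 + b * k = R := by rw [← hkR]; ring
    rw [this, div_self hR0.ne']
  have hnw : ‖w‖ = 1 := by
    rw [corner (v := w) (by rw [hw1]; positivity) (by rw [hw2]; linarith)
      (by rw [hw1, hw2]; nlinarith [mul_pos hep hb0, mul_pos hep (pow_pos hb0 2)])
      (by rw [hw1, hw2]; nlinarith [mul_le_mul_of_nonneg_left he1 hb0.le]), hw1, hw2, ← hR]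
    have : k * (b : ℝ) ^ 2 + e * b + b * (k - e) = R := by rw [← hkR]; ring
    rw [this, div_self hR0.ne']
  have hs : ‖v + w‖ = 2 := by
    have e1 : (v + w).1 = 2 * (k * (b : ℝ) ^ 2) + e * b := by
      rw [dfst_add, hv1, hw1]; ring
    have e2 : (v + w).2 = 2 * k - e := by rw [dsnd_add, hv2, hw2]; ring
    rw [corner (v := v + w) (by rw [e1]; positivity) (by rw [e2]; linarith)
      (by rw [e1, e2]; nlinarith [mul_pos hep hb0, mul_pos hep (pow_pos hb0 2)])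
      (by rw [e1, e2]; nlinarith [mul_le_mul_of_nonneg_left he1 hb0.le]), e1, e2, ← hR]
    have : 2 * (k * (b : ℝ) ^ 2) + e * b + b * (2 * k - e) = 2 * R := by rw [← hkR]; ring
    rw [this]
    field_simp
  have hd1 : e ≤ ‖v - w‖ := by
    have := abs_snd_le (v - w)
    rw [dsnd_sub, hv2, hw2] at this
    have h5 : |k - (k - e)| = e := by
      rw [sub_sub_cancel, abs_of_pos hep]
    rw [h5] at this
    exact this
  have hd2 : ‖v - w‖ ^ 2 ≤ e ^ 2 * ((b : ℝ) ^ 2 + 1) := by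
    have := ND_sq_le (v - w) le_rfl hb2 hAB1
    rw [dfst_sub, dsnd_sub, hv1, hv2, hw1, hw2] at this
    rw [dnorm_def]
    refine this.trans (le_of_eq ?_)
    ring
  apply not_hasAngle_of hnv hnw
  rw [hs]
  set q := ‖v - w‖ ^ 2 / 4 with hq
  have hq0 : 0 < q := by
    have : 0 < ‖v - w‖ := by linarith
    positivity
  have hq1 : c * q < c - 1 := by
    have h5 : 4 * q = ‖v - w‖ ^ 2 := by rw [hq]; ring
    have h6 : e ^ 2 ≤ e := by nlinarith
    have h7 : 0 < (b : ℝ) ^ 2 + 1 := by positivity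
    have h8 : e ^ 2 * ((b : ℝ) ^ 2 + 1) ≤ e * ((b : ℝ) ^ 2 + 1) := by gcongr
    have h9 : c * (4 * q) ≤ c - 1 := by
      rw [h5]
      calc c * ‖v - w‖ ^ 2 ≤ c * (e * ((b : ℝ) ^ 2 + 1)) := by
            gcongr
            linarith
        _ = e * (c * ((b : ℝ) ^ 2 + 1)) := by ring
        _ ≤ c - 1 := he4
    have : 0 < c * q := by positivity
    nlinarith
  have e3 : ((2 : ℝ) ^ 2 - ‖v - w‖ ^ 2) / 4 = 1 - q := by rw [hq]; ring
  have e4 : ((2 : ℝ) ^ 2 + ‖v - w‖ ^ 2) / 4 = 1 + q := by rw [hq]; ring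
  rw [e3, e4]
  have h5 := bern (c := c) (s := q) hc.le (by linarith)
  have h6 : 0 < 1 - q := by nlinarith
  calc 1 < (1 - q) * (1 + c * q) := by nlinarith
    _ ≤ (1 - q) * (1 + q) ^ c := by gcongr

end DXsec

/-! ### Conclusion -/

/-- The parameter of the examples. -/
noncomputable def par (c : ℝ) (hc : 1 < c) : Set.Ioi (1 : ℝ) :=
  ⟨Real.sqrt ((c + 1) / (c - 1)), by
    rw [Set.mem_Ioi, Real.lt_sqrt zero_le_one, one_pow, lt_div_iff₀ (by linarith)]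
    linarith⟩

lemma par_spec (c : ℝ) (hc : 1 < c) :
    c * ((par c hc : ℝ) ^ 2 - 1) = (par c hc : ℝ) ^ 2 + 1 := by
  have h0 : 0 < c - 1 := by linarith
  have h1 : (par c hc : ℝ) ^ 2 = (c + 1) / (c - 1) := Real.sq_sqrt (by positivity)
  rw [h1]
  field_simp
  ring

lemma P_ge {X : Type} [NormedAddCommGroup X] [NormedSpace ℝ X] (u v : X) :
    0 ≤ (‖u + v‖ ^ 2 + ‖u - v‖ ^ 2) / 4 := by positivity

lemma incl_pos {α β : ℝ} (hα : 0 < α) (hαβ : α < β) : NORM β ⊆ NORM α := by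
  rintro X hX
  apply hasAngle_of (X := X.carrier)
  intro x y hx hy
  have hx0 : x ≠ 0 := by rintro rfl; simp at hx
  have hy0 : y ≠ 0 := by rintro rfl; simp at hy
  have h1 := (le_abs_self _).trans (hX x y hx0 hy0)
  unfold ip at h1
  rw [hx, hy, inv_one, one_smul, one_smul, mul_one, one_mul] at h1
  set P := (‖x + y‖ ^ 2 + ‖x - y‖ ^ 2) / 4 with hP
  set Q := (‖x + y‖ ^ 2 - ‖x - y‖ ^ 2) / 4 with hQ
  have hP0 : 0 ≤ P := by positivity
  have hQP : Q ≤ P := by rw [hP, hQ]; linarith [sq_nonneg ‖x - y‖]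
  rcases le_total Q 0 with hQ0 | hQ0
  · have := Real.rpow_nonneg hP0 α
    nlinarith
  · rcases le_total P 1 with h | h
    · have h2 : P ^ α ≤ 1 := Real.rpow_le_one hP0 h hα.le
      have h3 := Real.rpow_nonneg hP0 α
      nlinarith
    · have h2 : P ^ α ≤ P ^ β := Real.rpow_le_rpow_of_exponent_le h hαβ.le
      calc Q * P ^ α ≤ Q * P ^ β := by gcongr
        _ ≤ 1 := h1

lemma incl_neg {γ δ : ℝ} (hγ : 1 < γ) (hγδ : γ < δ) : NORM (-δ) ⊆ NORM (-γ) := by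
  rintro X hX
  apply hasAngle_of (X := X.carrier)
  intro x y hx hy
  have hx0 : x ≠ 0 := by rintro rfl; simp at hx
  have hy0 : y ≠ 0 := by rintro rfl; simp at hy
  have h1 := (le_abs_self _).trans (hX x y hx0 hy0)
  unfold ip at h1
  rw [hx, hy, inv_one, one_smul, one_smul, mul_one, one_mul] at h1
  set P := (‖x + y‖ ^ 2 + ‖x - y‖ ^ 2) / 4 with hP
  set Q := (‖x + y‖ ^ 2 - ‖x - y‖ ^ 2) / 4 with hQ
  have hP0' : 0 ≤ P := by positivity
  have hQP : Q ≤ P := by rw [hP, hQ]; linarith [sq_nonneg ‖x - y‖]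
  rcases le_total Q 0 with hQ0 | hQ0
  · have := Real.rpow_nonneg hP0' (-γ)
    nlinarith
  · rcases hP0'.eq_or_lt with h0 | hP0
    · have : Q = 0 := le_antisymm (by linarith) hQ0
      rw [this]; simp
    · rcases le_total P 1 with h | h
      · have h2 : P ^ (-γ) ≤ P ^ (-δ) :=
          Real.rpow_le_rpow_of_exponent_ge hP0 h (by linarith)
        calc Q * P ^ (-γ) ≤ Q * P ^ (-δ) := by gcongr
          _ ≤ 1 := h1
      · have h2 : P ^ (-γ) ≤ P ^ (-1 : ℝ) := Real.rpow_le_rpow_of_exponent_le h (by linarith)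
        calc Q * P ^ (-γ) ≤ P * P ^ (-1 : ℝ) := by gcongr
          _ = 1 := by rw [Real.rpow_neg_one, mul_inv_cancel₀ hP0.ne']

/-- The five classes are pairwise different, and the inclusions between them are proper. -/
theorem result : ∀ α β γ δ : ℝ, 1 < γ → γ < δ → 1 < α → α < β →
    List.Pairwise (· ≠ ·) [NORM (-δ), NORM (-γ), Set.univ, NORM α, NORM β] ∧
      NORM (-δ) ⊂ NORM (-γ) ∧ NORM β ⊂ NORM α := by
  intro α β γ δ hγ hγδ hα hαβ
  -- the examples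
  set D : NSp := ⟨DX (par γ hγ)⟩ with hD
  have D1 : D ∈ NORM (-γ) := dX_neg (par_spec γ hγ)
  have D2 : D ∉ NORM (-δ) := dX_not_neg (par_spec γ hγ) hγδ
  have D3 : D ∉ NORM α := dX_not_pos hα
  have D4 : D ∉ NORM β := dX_not_pos (hα.trans hαβ)
  have hδ : 1 < δ := hγ.trans hγδ
  set D' : NSp := ⟨DX (par δ hδ)⟩ with hD'
  have D1' : D' ∈ NORM (-δ) := dX_neg (par_spec δ hδ)
  have D3' : D' ∉ NORM α := dX_not_pos hα
  have D4' : D' ∉ NORM β := dX_not_pos (hα.trans hαβ)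
  set γ' : ℝ := (1 + γ) / 2 with hγ'
  have hγ'1 : 1 < γ' := by rw [hγ']; linarith
  set D'' : NSp := ⟨DX (par γ' hγ'1)⟩ with hD''
  have D2'' : D'' ∉ NORM (-γ) := dX_not_neg (par_spec γ' hγ'1) (by rw [hγ']; linarith)
  set P : NSp := ⟨PX (par α hα)⟩ with hP
  have P1 : P ∈ NORM α := pX_pos (par_spec α hα)
  have P2 : P ∉ NORM β := pX_not (par_spec α hα) hαβ
  have ne1 : NORM (-δ) ≠ NORM (-γ) := fun h => D2 (h ▸ D1)
  have ne2 : NORM β ≠ NORM α := fun h => P2 (h ▸ P1)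
  refine ⟨?_, ⟨incl_neg hγ hγδ, fun h => D2 (h D1)⟩, ⟨incl_pos (by linarith) hαβ, fun h => P2 (h P1)⟩⟩
  simp only [List.pairwise_cons, List.mem_cons, List.not_mem_nil, or_false, forall_eq_or_imp,
    forall_eq, IsEmpty.forall_iff, implies_true, List.Pairwise.nil, and_true]
  refine ⟨⟨ne1, ?_, ?_, ?_⟩, ⟨?_, ?_, ?_⟩, ⟨?_, ?_⟩, ne2.symm⟩
  · exact fun h => D2 (h ▸ Set.mem_univ _)
  · exact fun h => D3' (h ▸ D1')
  · exact fun h => D4' (h ▸ D1')
  · exact fun h => D2'' (h ▸ Set.mem_univ _)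
  · exact fun h => D3 (h ▸ D1)
  · exact fun h => D4 (h ▸ D1)
  · exact fun h => D3 (h ▸ Set.mem_univ _)
  · exact fun h => D4 (h ▸ Set.mem_univ _)

end Pool.Agent.Results.MP_843c3c_an.FiveClasses
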